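import Pool.Agent.H606.GU.Stm

/-!
# Project GU2 (helper606): the hierarchy of the correlation conjectures for the zeta zeros
(unconditional): definitions and statements.  See `Pool.Agent.H606.GU.Stm` for `Cfg`, `Up`, `Low`,
`Con`, `Lim`, `tile`, `tc`, `mm`, `rho`, `Sq`.
-/

open MeasureTheory Filter Topology Finset

namespace Pool.Agent.H606.GU

/-- the configurations of a sequence -/
noncomputable def Sq.cfg (h : S_SEQ) (S : Sq) : Cfg where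
  N := S.N
  x := S.x
  R T := T / (2 * Real.pi) * Real.log T
  hx := (h S).1
  hR := (h S).2.1
  hN := (h S).2.2.1

/-- TASK SMALL. Repulsion: the correlation function is small on small cubes. -/
def S_SMALL : Prop := ∀ (n : ℕ) (a : ℝ), 2 ≤ n → 0 < a →
  Tendsto (fun m : ℕ => (m : ℝ) ^ n * mm n (a / m)) atTop (𝓝 0)

/-- TASK UI. Uniform integrability of the `n`-th power of the number of points in a window, from the
upper half at level `n` and the repulsion. -/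
def S_UI : Prop := ∀ (C : Cfg) (n : ℕ) (c : ℝ), 2 ≤ n → 0 ≤ c → Up C (Fin n) c →
  ∀ a : ℝ, 0 < a → ∀ ε : ℝ, 0 < ε → ∃ A : ℝ, 0 < A ∧ ∀ᶠ T in atTop,
    (∫ t : ℝ, (if A ≤ (tc (C.x T) a 0 t : ℝ) then (tc (C.x T) a 0 t : ℝ) ^ n else 0)) / C.R T ≤ ε

/-- TASK LOWA. The lower half for bounded sets with null frontier. -/
def S_LOWA : Prop := ∀ (C : Cfg) (k : ℕ), 1 ≤ k → Up C (Fin k) 1 → (∀ a : ℝ, 0 < a → Low C k a) →
  ∀ A : Set (Fin k → ℝ), MeasurableSet A → Bornology.IsBounded A → volume (frontier A) = 0 →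
  ∀ ε : ℝ, 0 < ε → ∀ᶠ T in atTop, (∫ y in A, rho y) - ε ≤ Av (C.x T) (C.R T) A

/-- TASK LIMC. From boxes to cubes, lower half. -/
def S_LIMC : Prop := ∀ (C : Cfg) (d : ℕ), Lim C d → Up C (Fin (d + 1)) 1 →
  ∀ a : ℝ, 0 < a → Low C (d + 1) a

/-- TASK REDL. The lower half at the level `n` from the level `n + 1`. -/
def S_REDL : Prop := ∀ (C : Cfg) (n : ℕ), 1 ≤ n → Con C → Up C (Fin (n + 1)) 1 →
  (∀ a : ℝ, 0 < a → Low C (n + 1) a) → ∀ a : ℝ, 0 < a → Low C n a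

/-- TASK VF2. -/
def S_VF2 : Prop := ∀ (C : Cfg) (k : ℕ) (a : ℝ), 1 ≤ k → 0 < a → Up C (Fin (2 * k)) 1 → VarF C k a

/-- TASK AMP2. -/
def S_AMP2 : Prop := ∀ (C : Cfg) (j k : ℕ) (b c : ℝ), 1 ≤ j → 1 ≤ k → 0 ≤ b → 0 ≤ c → c ≤ b ^ j →
  Up C (Fin j × Fin k) c → Up C (Fin k) b

/-- TASK RED2. -/
def S_RED2 : Prop := ∀ (C : Cfg) (n : ℕ) (c : ℝ), 1 ≤ n → 0 ≤ c → Con C →
  Up C (Fin (n + 1)) c → Up C (Fin n) c

/-- the law of large numbers for long windows, on dyadic intervals -/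
def Dya (S : Sq) : Prop := ∀ ε : ℝ, 0 < ε → ∃ K T0 : ℝ, 1 ≤ K ∧ 10 ≤ T0 ∧ ∀ T : ℝ, T0 ≤ T →
  ∀ s : ℝ, K ≤ s * Real.log T → s ≤ 1 / K →
  ∫ t in (T + 2 * Real.log T)..(2 * T - 2 * Real.log T),
    |({n : ℕ | t < S.g n ∧ S.g n ≤ t + s}.ncard : ℝ) - s * Real.log T / (2 * Real.pi)| ≤
    ε * s * Real.log T * T

/-- TASK CONS. -/
def S_CONS : Prop := ∀ (h : S_SEQ) (S : Sq), Dya S → Con (S.cfg h)

end Pool.Agent.H606.GU
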