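import Pool.Agent.H606.GU.Zeta
import Pool.Agent.H606.GU.Stm2
import Pool.Agent.H203.ME.ALL2

/-! The law of large numbers for long windows (helper203), for the sequence of the ordinates. -/

open Filter Topology Finset MeasureTheory

namespace Pool.Agent.H606.GU

theorem cnt_NZ {T a b : ℝ} (hT : 1 ≤ T) (ha : T ≤ a) (hab : a ≤ b) (hb : b ≤ 2 * T) :
    H203.ME.cnt T a b = (SG.NZ b : ℝ) - SG.NZ a := by
  classical
  have h1 : H370.NN riemannZeta a b = ∑ s ∈ H370.Zf riemannZeta a b, H370.mult riemannZeta s :=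
    H370.NN_eq H370.good_zeta (hT.trans ha)
  have h2 : H203.ME.cnt T a b = (H370.NN riemannZeta a b : ℝ) := by
    unfold H203.ME.cnt
    rw [h1]
    push_cast
    have h3 : H370.Zf riemannZeta a b =
        (H370.Zf riemannZeta T (2 * T)).filter (fun z => z.im ∈ Set.Ioc a b) := by
      ext z
      rw [Finset.mem_filter, H370.mem_Zf H370.good_zeta (hT.trans ha),
        H370.mem_Zf H370.good_zeta hT]
      simp only [H370.zset, Set.mem_ofPred_eq, Set.mem_Ioc]
      constructor
      · rintro ⟨a1, a2, a3, a4, a5⟩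
        exact ⟨⟨a1, a2, lt_of_le_of_lt ha a3, a4.trans hb, a5⟩, a3, a4⟩
      · rintro ⟨⟨a1, a2, a3, a4, a5⟩, a6, a7⟩
        exact ⟨a1, a2, a6, a7, a5⟩
    rw [h3, Finset.sum_filter]
    refine Finset.sum_congr rfl fun z _ => ?_
    unfold H203.ME.mz
    by_cases h : z.im ∈ Set.Ioc a b
    · rw [Set.indicator_of_mem h, if_pos h, mul_one]
    · rw [Set.indicator_of_notMem h, if_neg h, mul_zero]
  rw [h2, NZ_eq_NN, NZ_eq_NN, Pool.Agent.W54.TCF.NN_zero_add (A := a) (X := b) (hT.trans ha) hab]
  push_cast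
  ring

theorem ncard_NZ (t s : ℝ) (hs : 0 ≤ s) :
    ({n : ℕ | t < zsq.g n ∧ zsq.g n ≤ t + s}.ncard : ℝ) = (SG.NZ (t + s) : ℝ) - SG.NZ t := by
  have h1 : {n : ℕ | t < zsq.g n ∧ zsq.g n ≤ t + s} = (Finset.Ico (SG.NZ t) (SG.NZ (t + s)) : Set ℕ) := by
    ext n
    simp only [Set.mem_ofPred_eq, Finset.coe_Ico, Set.mem_Ico]
    have h2 := zsq.hc n (t + s)
    have h3 := zsq.hc n t
    constructor
    · rintro ⟨h4, h5⟩
      refine ⟨?_, h2.1 h5⟩
      by_contra hcon
      exact absurd (h3.2 (not_le.1 hcon)) (not_le.2 h4)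
    · rintro ⟨h4, h5⟩
      refine ⟨?_, h2.2 h5⟩
      by_contra hcon
      have := h3.1 (not_lt.1 hcon)
      change n < SG.NZ t at this
      omega
  rw [h1, Set.ncard_coe_finset, Nat.card_Ico, Nat.cast_sub (SG.NZ_mono (by linarith))]

theorem dya_zeta : Dya zsq := by
  intro ε hε
  obtain ⟨K, T0, hK, hT0, h⟩ := H203.ME.p_LLN ε hε
  refine ⟨K, T0, hK, hT0, fun T hT s hs1 hs2 => ?_⟩
  have hT10 : (10 : ℝ) ≤ T := hT0.trans hT
  have hlog : 0 < Real.log T := Real.log_pos (by linarith)
  have hs0 : 0 ≤ s := by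
    by_contra hcon
    push Not at hcon
    have := mul_neg_of_neg_of_pos hcon hlog
    linarith
  have hs3 : s ≤ 1 := hs2.trans (by rw [div_le_one (by linarith)]; exact hK)
  have hlog1 : 1 ≤ Real.log T := by
    rw [Real.le_log_iff_exp_le (by linarith)]
    have := Real.exp_one_lt_d9
    linarith
  refine le_of_eq_of_le ?_ (h T hT s hs1 hs2)
  by_cases hle : T + 2 * Real.log T ≤ 2 * T - 2 * Real.log T
  · apply intervalIntegral.integral_congr
    intro t ht
    rw [Set.uIcc_of_le hle] at ht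
    simp only
    rw [ncard_NZ t s hs0, cnt_NZ (by linarith) (by linarith [ht.1]) (by linarith)
      (by linarith [ht.2])]
  · -- the reversed interval is still inside `[T, 2T]`
    push Not at hle
    have hl2 : Real.log T ≤ T / 4 + 2 / 5 := by
      have h1 : Real.log T = Real.log (T / 4) + Real.log 4 := by
        rw [← Real.log_mul (by positivity) (by norm_num)]
        congr 1
        ring
      have h2 := Real.log_le_sub_one_of_pos (show 0 < T / 4 by linarith)
      have h3 : Real.log 4 ≤ 7 / 5 := by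
        rw [show (4 : ℝ) = 2 ^ 2 by norm_num, Real.log_pow]
        have := Real.log_two_lt_d9
        push_cast
        linarith
      linarith
    apply intervalIntegral.integral_congr
    intro t ht
    rw [Set.uIcc_of_ge hle.le] at ht
    simp only
    rw [ncard_NZ t s hs0, cnt_NZ (by linarith) (by linarith [ht.1]) (by linarith)
      (by linarith [ht.2])]

end Pool.Agent.H606.GU
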