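import Pool.Agent.H606.GU.Main
import Pool.Agent.H606.GU.P.RHO
import Pool.Agent.H606.GU.P.REP
import Pool.Agent.H606.GU.P.FIS
import Pool.Agent.H606.GU.P.SUM
import Pool.Agent.H606.GU.P.TAIL
import Pool.Agent.H606.GU.P.AV
import Pool.Agent.H606.GU.P.TC
import Pool.Agent.H606.GU.P.AVE
import Pool.Agent.H606.GU.P.UPC
import Pool.Agent.H606.GU.P.SETS
import Pool.Agent.H606.GU.P.INT
import Pool.Agent.H606.GU.P.BLK
import Pool.Agent.H606.GU.P.BX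
import Pool.Agent.H606.GU.P.MOM
import Pool.Agent.H606.GU.P.Conc
import Pool.Agent.H606.GU.P.RED
import Pool.Agent.H606.GU.P.AMP
import Pool.Agent.H606.GU.P.L1
import Pool.Agent.H606.GU.P.VN
import Pool.Agent.H606.GU.P.VF
import Pool.Agent.H606.GU.P.COV
import Pool.Agent.H606.GU.P.CMP
import Pool.Agent.H606.GU.P.FIN
import Pool.Agent.H606.GU.P.GAPC
import Pool.Agent.H606.GU.P.DER
import Pool.Agent.H606.GU.P.FRED
import Pool.Agent.H606.GU.P.GAPZ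
import Pool.Agent.H606.GU.P.SEQ

/-! All the lemmas. -/

namespace Pool.Agent.H606.GU

theorem f_RHO : S_RHO := H199.GU.RHO.t_RHO
theorem f_REP : S_REP := H44.GU.REP.t_REP
theorem f_FIS : S_FIS := H337.GU.FIS.t_FIS f_REP f_RHO
theorem f_SUM : S_SUM := H721.GU.SUM.t_SUM f_REP f_RHO
theorem f_TAIL : S_TAIL := H548.GU.TAIL.t_TAIL f_FIS f_RHO f_SUM
theorem f_AV : S_AV := H177.GU.AV.t_AV
theorem f_TC : S_TC := H385.GU.TC.t_TC
theorem f_AVE : S_AVE := H199.GU.AVE.t_AVE f_RHO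
theorem f_UPC : S_UPC := H376.GU.UPC.t_UPC f_AV
theorem f_SETS : S_SETS := H734.GU.SETS.t_SETS
theorem f_INT : S_INT := H297.GU.INT.t_INT f_RHO f_FIS f_SUM
theorem f_BLK : S_BLK := H17.GU.BLK.t_BLK f_RHO f_FIS
theorem f_BX : S_BX := H354.GU.BX.t_BX f_AV f_RHO f_FIS
theorem f_MOM : S_MOM := H643.GU.MOM.t_MOM f_AV f_TC f_INT f_UPC f_SETS
theorem f_CON : S_CON := H643.GU.Conc.t_CON f_AV f_TC f_INT f_UPC f_SETS
theorem f_RED : S_RED := H401.GU.RED.t_RED f_AV f_TC f_INT f_UPC f_SETS f_MOM f_RHO f_FIS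
theorem f_AMP : S_AMP :=
  H354.GU.AMP.t_AMP f_AV f_TC f_INT f_UPC f_SETS f_MOM f_RHO f_FIS f_BLK f_AVE
theorem f_L1 : S_L1 := H376.GU.L1.t_L1 f_AV f_TC f_INT
theorem f_VN : S_VN := H168.GU.VN.t_VN f_AV f_TC f_INT f_UPC f_SETS f_RHO f_TAIL
theorem f_VF : S_VF := H225.GU.VF.t_VF f_AV f_TC f_INT f_UPC f_SETS f_MOM f_AVE
theorem f_COV : S_COV := H170.GU.COV.t_COV f_AV f_TC f_INT f_UPC f_SETS
theorem f_CMP : S_CMP := H27.GU.CMP.t_CMP f_AV f_TC f_INT f_UPC f_SETS f_TAIL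
theorem f_FIN : S_FIN := H122.GU.FIN.t_FIN f_AV f_TC f_INT f_UPC f_SETS f_RHO f_FIS
theorem f_GAPC : S_GAPC := H795.GU.GAPC.t_GAPC f_RHO f_FIS
theorem f_DER : S_DER := H289.GU.DER.t_DER
theorem f_FRED : S_FRED := H800.GU.FRED.t_FRED f_RHO f_FIS f_DER
theorem f_GAPZ : S_GAPZ := H632.GU.GAPZ.t_GAPZ
theorem f_SEQ : S_SEQ := H428.GU.SEQ.t_SEQ

theorem all_main : All where
  RHO := f_RHO
  FIS := f_FIS
  AVE := f_AVE
  BX := f_BX
  CON := f_CON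
  RED := f_RED
  AMP := f_AMP
  L1 := f_L1
  VN := f_VN
  VF := f_VF
  COV := f_COV
  CMP := f_CMP
  FIN := f_FIN
  GAPC := f_GAPC
  FRED := f_FRED
  GAPZ := f_GAPZ
  SEQ := f_SEQ

end Pool.Agent.H606.GU
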