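import Pool.Agent.H606.GU.Zeta
import Pool.Agent.H606.GU.Stm2

/-! Assembly of project GU from the lemmas. -/

open MeasureTheory Filter Topology Finset

namespace Pool.Agent.H606.GU

/-- all the lemmas -/
structure All : Prop where
  RHO : S_RHO
  FIS : S_FIS
  AVE : S_AVE
  BX : S_BX
  CON : S_CON
  RED : S_RED
  AMP : S_AMP
  L1 : S_L1
  VN : S_VN
  VF : S_VF
  COV : S_COV
  CMP : S_CMP
  FIN : S_FIN
  GAPC : S_GAPC
  FRED : S_FRED
  GAPZ : S_GAPZ
  SEQ : S_SEQ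

/-- lowering the level -/
theorem red_iter (A : All) (C : Cfg) (H : Hyp C) (c : ℝ) (hc : 0 ≤ c) (m : ℕ) (hm : 1 ≤ m) (d : ℕ)
    (h : Up C (Fin (m + d)) c) : Up C (Fin m) c := by
  induction d with
  | zero => exact h
  | succ d ih =>
    apply ih
    obtain ⟨n', h1, h2⟩ := H 1 one_pos (2 * (m + d))
    exact A.RED C (m + d) c (by omega) hc (A.CON C H) ⟨n', (1 + 1) ^ n', h1, by positivity, h2⟩ h

theorem up_one (A : All) (C : Cfg) (H : Hyp C) (k : ℕ) (hk : 1 ≤ k) : Up C (Fin k) 1 := by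
  apply A.AMP C k hk
  intro δ hδ
  -- choose δ' with (1 + δ') ^ (2 k) ≤ 1 + δ
  have hlim : Tendsto (fun x : ℝ => (1 + x) ^ (2 * k)) (𝓝[>] 0) (𝓝 1) := by
    have : Tendsto (fun x : ℝ => (1 + x) ^ (2 * k)) (𝓝 0) (𝓝 ((1 + 0) ^ (2 * k))) :=
      (Continuous.tendsto (by fun_prop) 0)
    rw [add_zero, one_pow] at this
    exact this.mono_left nhdsWithin_le_nhds
  have hev : ∀ᶠ x : ℝ in 𝓝[>] 0, (1 + x) ^ (2 * k) < 1 + δ :=
    hlim.eventually_lt_const (by linarith)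
  obtain ⟨δ', h1, h2⟩ := (hev.and self_mem_nhdsWithin).exists
  have hδ' : 0 < δ' := h2
  obtain ⟨n, hn, hup⟩ := H δ' hδ' k
  set j := n / k with hj
  have hj1 : 1 ≤ j := (Nat.one_le_div_iff (by omega)).mpr hn
  have hjk : j * k ≤ n := Nat.div_mul_le_self n k
  have hn2 : n ≤ 2 * k * j := by
    have h3 : n % k < k := Nat.mod_lt n (by omega)
    have h4 : k * (n / k) + n % k = n := Nat.div_add_mod n k
    rw [← hj] at h4
    nlinarith
  refine ⟨j, hj1, (1 + δ') ^ n, by positivity, ?_, ?_⟩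
  · calc (1 + δ') ^ n ≤ (1 + δ') ^ (2 * k * j) := pow_le_pow_right₀ (by linarith) hn2
      _ = ((1 + δ') ^ (2 * k)) ^ j := by rw [pow_mul]
      _ ≤ (1 + δ) ^ j := pow_le_pow_left₀ (by positivity) h1.le j
  · have h3 : Up C (Fin (j * k)) ((1 + δ') ^ n) := by
      apply red_iter A C H _ (by positivity) (j * k) (Nat.mul_pos hj1 hk) (n - j * k)
      rw [Nat.add_sub_cancel' hjk]
      exact hup
    exact (A.AVE _ _ finProdFinEquiv.symm).2 C _ h3

theorem low_all (A : All) (C : Cfg) (H : Hyp C) (a : ℝ) (ha : 0 < a) (k : ℕ) (hk : 1 ≤ k) :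
    Low C k a := by
  have hup := up_one A C H
  have hVN : VarN C a := A.VN C (hup 2 (by norm_num)) a ha
  induction k, hk using Nat.le_induction with
  | base => exact (A.L1 C a ha).1
  | succ k hk ih =>
    exact A.CMP C k a hk ha (hup k hk) (hup (k + 1) (by omega))
      (A.COV C k a hk ha (hup k hk) hVN (A.VF C hup k a hk ha) ih)

/-- the abstract theorem -/
theorem lim_all (A : All) (C : Cfg) (H : Hyp C) (d : ℕ) : Lim C d :=
  A.FIN C d (up_one A C H (d + 1) (by omega)) (fun a ha => low_all A C H a ha (d + 1) (by omega))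

/-- `N_k(T; B)`, `k = r + 1`, for the ordinates of the zeta zeros -/
noncomputable def NkS (r : ℕ) (T : ℝ) (a b : Fin r → ℝ) : ℕ :=
  {j : Fin (r + 1) → ℕ | Function.Injective j ∧ (∀ i, 1 ≤ j i ∧ SG.ord (j i) ≤ T) ∧
    ∀ i : Fin r, (SG.ord (j i.castSucc) - SG.ord (j (Fin.last r))) *
      (Real.log T / (2 * Real.pi)) ∈ Set.Icc (a i) (b i)}.ncard

theorem NkS_eq (r : ℕ) (T : ℝ) (hT : 2 ≤ T) (a b : Fin r → ℝ) :
    NkS r T a b = bn (zsq.x T) a b := by
  have hN : zsq.N T = SG.NZ T := by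
    unfold Sq.N
    rw [if_neg (not_lt.mpr hT)]
    rfl
  unfold NkS bn
  have hinj : Function.Injective (fun (s : Fin (r + 1) → Fin (zsq.N T)) (i : Fin (r + 1)) =>
      (s i).val + 1) := by
    intro s s' h
    funext i
    have := congrFun h i
    simp only at this
    exact Fin.ext (by omega)
  rw [← Set.ncard_image_of_injective _ hinj]
  congr 1
  ext j
  simp only [Set.mem_image, Set.mem_ofPred_eq]
  constructor
  · rintro ⟨h1, h2, h3⟩
    have hlt : ∀ i, j i - 1 < zsq.N T := by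
      intro i
      rw [hN]
      have := (SG.ord_le_iff (h2 i).1 T).mp (h2 i).2
      have := (h2 i).1
      omega
    refine ⟨fun i => ⟨j i - 1, hlt i⟩, ⟨?_, ?_⟩, ?_⟩
    · intro i i' h
      apply h1
      simp only [Fin.mk.injEq] at h
      have := (h2 i).1
      have := (h2 i').1
      omega
    · intro i
      have e1 : j i.castSucc - 1 + 1 = j i.castSucc := Nat.sub_add_cancel (h2 _).1
      have e2 : j (Fin.last r) - 1 + 1 = j (Fin.last r) := Nat.sub_add_cancel (h2 _).1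
      have := h3 i
      simp only [Sq.x, zsq]
      rw [e1, e2, ← sub_mul]
      exact this
    · funext i
      exact Nat.sub_add_cancel (h2 i).1
  · rintro ⟨s, ⟨h1, h2⟩, rfl⟩
    refine ⟨?_, ?_, ?_⟩
    · intro i i' h
      apply h1
      simp only at h
      exact Fin.ext (by omega)
    · intro i
      refine ⟨Nat.succ_pos _, ?_⟩
      rw [SG.ord_le_iff (Nat.succ_pos _)]
      have := (s i).isLt
      have h3 := hN.le
      exact (Nat.succ_le_of_lt this).trans h3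
    · intro i
      have := h2 i
      simp only [Sq.x, zsq] at this
      rw [← sub_mul] at this
      exact this

/-- the upper half of the correlation conjecture for the zeta zeros, level `r + 1`, constant `c` -/
def UpZ (r : ℕ) (c : ℝ) : Prop := ∀ a b : Fin r → ℝ, ∀ ε : ℝ, 0 < ε → ∀ᶠ T in atTop,
  (NkS r T a b : ℝ) ≤ (c * bI a b + ε) * (T / (2 * Real.pi) * Real.log T)

theorem posR {T : ℝ} (hT : 2 ≤ T) : 0 < T / (2 * Real.pi) * Real.log T := by
  have h1 : 0 < Real.log T := Real.log_pos (by linarith)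
  have h2 := Real.pi_pos
  have h3 : 0 < T := by linarith
  positivity

theorem box_of_upZ (h : S_SEQ) (r : ℕ) (c : ℝ) (H : UpZ r c) : Box (Sq.cfg h zsq) r c := by
  intro a b ε hε
  filter_upwards [H a b ε hε, eventually_ge_atTop 2] with T h1 h2
  have h3 := NkS_eq r T h2 a b
  rw [h3] at h1
  exact (div_le_iff₀ (posR h2)).mpr h1

theorem lim_zeta (A : All)
    (H : ∀ δ : ℝ, 0 < δ → ∀ n0 : ℕ, ∃ r : ℕ, n0 ≤ r ∧ UpZ r ((1 + δ) ^ (r + 1))) :
    ∀ d, Lim (Sq.cfg A.SEQ zsq) d := by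
  apply lim_all A
  intro δ hδ n0
  obtain ⟨r, h1, h2⟩ := H δ hδ n0
  exact ⟨r + 1, by omega, A.BX _ r _ (by positivity) (box_of_upZ A.SEQ r _ h2)⟩

theorem corr_zeta (A : All)
    (H : ∀ δ : ℝ, 0 < δ → ∀ n0 : ℕ, ∃ r : ℕ, n0 ≤ r ∧ UpZ r ((1 + δ) ^ (r + 1)))
    (r : ℕ) (a b : Fin r → ℝ) :
    Tendsto (fun T => (NkS r T a b : ℝ) / (T / (2 * Real.pi) * Real.log T)) atTop
      (𝓝 (bI a b)) := by
  refine (lim_zeta A H r a b).congr' ?_
  filter_upwards [eventually_ge_atTop 2] with T hT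
  rw [NkS_eq r T hT a b]
  rfl

theorem gaps_zeta (A : All)
    (H : ∀ δ : ℝ, 0 < δ → ∀ n0 : ℕ, ∃ r : ℕ, n0 ≤ r ∧ UpZ r ((1 + δ) ^ (r + 1)))
    (α β : ℝ) (hα : 0 < α) (hαβ : α < β) :
    Tendsto (fun N : ℕ => (1 / N : ℝ) * ({n : ℕ | 1 ≤ n ∧ n ≤ N ∧
      α ≤ (SG.ord (n + 1) - SG.ord n) / (2 * Real.pi) * Real.log (SG.ord n / (2 * Real.pi)) ∧
      (SG.ord (n + 1) - SG.ord n) / (2 * Real.pi) * Real.log (SG.ord n / (2 * Real.pi)) ≤
        β}.ncard : ℝ)) atTop (𝓝 (∫ s in α..β, deriv (deriv EE) s)) := by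
  have h1 := A.GAPZ zsq (fun s hs => A.GAPC (Sq.cfg A.SEQ zsq) (A.SEQ zsq).2.2.2
    (lim_zeta A H) s hs) A.FRED.1 α β hα hαβ
  rw [A.FRED.2 α β hα hαβ.le] at h1
  refine h1.congr (fun N => ?_)
  rw [one_div, inv_mul_eq_div]
  congr 2
  rw [← Set.ncard_image_of_injective _ Nat.succ_injective]
  congr 1
  ext n
  simp only [Set.mem_image, Set.mem_ofPred_eq, zsq]
  constructor
  · rintro ⟨m, ⟨h1, h2⟩, rfl⟩
    exact ⟨by omega, by omega, h2⟩
  · rintro ⟨h1, h2, h3⟩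
    obtain ⟨m, rfl⟩ : ∃ m, n = m + 1 := ⟨n - 1, by omega⟩
    exact ⟨m, ⟨by omega, h3⟩, rfl⟩

/-- the converse -/
theorem conv_zeta (r : ℕ)
    (H : ∀ a b : Fin r → ℝ, Tendsto (fun T => (NkS r T a b : ℝ) /
      (T / (2 * Real.pi) * Real.log T)) atTop (𝓝 (bI a b))) : UpZ r 1 := by
  intro a b ε hε
  filter_upwards [(H a b).eventually_lt_const (show bI a b < bI a b + ε by linarith),
    eventually_ge_atTop 2] with T h1 h2
  rw [div_lt_iff₀ (posR h2)] at h1
  rw [one_mul]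
  exact h1.le

end Pool.Agent.H606.GU
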