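import Pool.Agent.H606.GU.Final
import Pool.Agent.H606.GU.P.SMALL
import Pool.Agent.H606.GU.P.UI
import Pool.Agent.H606.GU.P.LOWA
import Pool.Agent.H606.GU.P.LIMC
import Pool.Agent.H606.GU.P.REDL
import Pool.Agent.H606.GU.P.VF2
import Pool.Agent.H606.GU.P.AMP2
import Pool.Agent.H606.GU.P.RED2
import Pool.Agent.H606.GU.P.CONS
import Pool.Agent.H606.GU.Dyz

/-! The hierarchy of the correlation conjectures. -/

open MeasureTheory Filter Topology Finset

namespace Pool.Agent.H606.GU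

theorem f_SMALL : S_SMALL := H870.GU.SMALL.t_SMALL f_RHO f_FIS
theorem f_UI : S_UI := H686.GU.UI.t_UI f_AV f_TC f_INT f_UPC f_SETS f_SMALL
theorem f_LOWA : S_LOWA := H720.GU.LOWA.t_LOWA f_AV f_UPC f_SETS f_RHO f_FIS
theorem f_LIMC : S_LIMC := H588.GU.LIMC.t_LIMC f_AV f_UPC f_SETS f_RHO f_FIS
theorem f_REDL : S_REDL :=
  H122.GU.REDL.t_REDL f_AV f_TC f_INT f_UPC f_SETS f_RHO f_FIS f_SUM f_UI f_LOWA
theorem f_VF2 : S_VF2 := H181.GU.VF2.t_VF2 f_AV f_TC f_INT f_UPC f_SETS f_MOM f_AVE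
theorem f_AMP2 : S_AMP2 :=
  H548.GU.AMP2.t_AMP2 f_AV f_TC f_INT f_UPC f_SETS f_MOM f_RHO f_FIS f_BLK f_AVE
theorem f_RED2 : S_RED2 := H321.GU.RED2.t_RED2 f_AV f_TC f_INT f_UPC f_SETS f_MOM f_RHO f_FIS
theorem f_CONS : S_CONS := H162.GU.CONS.t_CONS

/-- lowering the level, upper half -/
theorem up_down {C : Cfg} (hC : Con C) {c : ℝ} (hc : 0 ≤ c) {m : ℕ} (hm : 1 ≤ m) (d : ℕ)
    (h : Up C (Fin (m + d)) c) : Up C (Fin m) c := by
  induction d with
  | zero => exact h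
  | succ d ih => exact ih (f_RED2 C (m + d) c (by omega) hc hC h)

theorem up_down' {C : Cfg} (hC : Con C) {c : ℝ} (hc : 0 ≤ c) {m n : ℕ} (hm : 1 ≤ m) (hmn : m ≤ n)
    (h : Up C (Fin n) c) : Up C (Fin m) c := by
  obtain ⟨d, rfl⟩ := Nat.exists_eq_add_of_le hmn
  exact up_down hC hc hm d h

/-- submultiplicativity -/
theorem up_root {C : Cfg} (hC : Con C) {j k n : ℕ} {b c : ℝ} (hj : 1 ≤ j) (hk : 1 ≤ k)
    (hjk : j * k ≤ n) (hb : 0 ≤ b) (hc : 0 ≤ c) (hcb : c ≤ b ^ j) (h : Up C (Fin n) c) :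
    Up C (Fin k) b := by
  have h1 : Up C (Fin (j * k)) c := up_down' hC hc (Nat.mul_pos hj hk) hjk h
  exact f_AMP2 C j k b c hj hk hb hc hcb ((f_AVE _ _ finProdFinEquiv.symm).2 C _ h1)

/-- the full correlation conjecture from the upper half at one level -/
theorem lim_of_up {C : Cfg} (hC : Con C) {n : ℕ} (hn : 2 ≤ n) (h : Up C (Fin n) 1) (k : ℕ)
    (hk : 1 ≤ k) (hkn : 2 * k ≤ n + 2) : Lim C (k - 1) := by
  have hup : ∀ m, 1 ≤ m → m ≤ n → Up C (Fin m) 1 := fun m h1 h2 =>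
    up_down' hC zero_le_one h1 h2 h
  have hlow : ∀ a : ℝ, 0 < a → ∀ m, 1 ≤ m → 2 * m ≤ n + 2 → Low C m a := by
    intro a ha m hm
    have hVN : VarN C a := f_VN C (hup 2 (by norm_num) hn) a ha
    induction m, hm using Nat.le_induction with
    | base => exact fun _ => (f_L1 C a ha).1
    | succ m hm ih =>
      intro hle
      exact f_CMP C m a hm ha (hup m hm (by omega)) (hup (m + 1) (by omega) (by omega))
        (f_COV C m a hm ha (hup m hm (by omega)) hVN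
          (f_VF2 C m a hm ha (hup (2 * m) (by omega) (by omega))) (ih (by omega)))
  obtain ⟨d, rfl⟩ : ∃ d, k = d + 1 := ⟨k - 1, by omega⟩
  rw [Nat.add_sub_cancel]
  exact f_FIN C d (hup (d + 1) hk (by omega)) (fun a ha => hlow a ha (d + 1) hk hkn)

/-- the limit formula gives the upper half -/
theorem up_of_lim {C : Cfg} {d : ℕ} (h : Lim C d) : Up C (Fin (d + 1)) 1 := by
  apply f_BX C d 1 zero_le_one
  intro a b ε hε
  filter_upwards [(h a b).eventually_lt_const (show bI a b < 1 * bI a b + ε by linarith)] with T h1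
  exact h1.le

/-- the hierarchy -/
theorem lim_down {C : Cfg} (hC : Con C) {d : ℕ} (m : ℕ) (h : Lim C (d + m)) : Lim C d := by
  have key : ∀ m : ℕ, Lim C (d + m) → Up C (Fin (d + 1)) 1 ∧ ∀ a : ℝ, 0 < a → Low C (d + 1) a := by
    intro m hm
    have h1 : Up C (Fin (d + m + 1)) 1 := up_of_lim hm
    have h2 : ∀ a : ℝ, 0 < a → Low C (d + m + 1) a := f_LIMC C (d + m) hm h1
    clear hm
    induction m with
    | zero => exact ⟨h1, h2⟩
    | succ m ih =>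
      exact ih (f_RED2 C (d + m + 1) 1 (by omega) zero_le_one hC h1)
        (f_REDL C (d + m + 1) (by omega) hC h1 h2)
  obtain ⟨h1, h2⟩ := key m h
  exact f_FIN C d h1 h2

/-! ### the zeta function -/

theorem con_zeta : Con (Sq.cfg f_SEQ zsq) := f_CONS f_SEQ zsq dya_zeta

/-- from compact sets back to boxes -/
theorem box_of_up {C : Cfg} {d : ℕ} {c : ℝ} (hc : 0 ≤ c) (h : Up C (Fin (d + 1)) c) :
    Box C d c := by
  intro a b ε hε
  obtain ⟨B, hB0, hB⟩ := H122.GU.FIN.bound_KB a b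
  have hbdd : Bornology.IsBounded (H122.GU.FIN.KB a b) := by
    refine (Metric.isBounded_Icc (fun _ => -B) (fun _ => B)).subset fun y hy => ?_
    exact ⟨fun i => (hB y hy i).1, fun i => (hB y hy i).2.le⟩
  have h1 := f_UPC C (Fin (d + 1)) c hc h (H122.GU.FIN.KB a b) (H122.GU.FIN.meas_KB a b) hbdd
    ((H122.GU.FIN.convex_KB a b).addHaar_frontier volume) ε hε
  filter_upwards [h1] with T h2
  rwa [H122.GU.FIN.Av_KB, H122.GU.FIN.int_KB f_RHO] at h2

theorem upZ_of_up {r : ℕ} {c : ℝ} (hc : 0 ≤ c) (h : Up (Sq.cfg f_SEQ zsq) (Fin (r + 1)) c) :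
    UpZ r c := by
  intro a b ε hε
  filter_upwards [box_of_up hc h a b ε hε, eventually_ge_atTop 2] with T h1 h2
  rw [NkS_eq r T h2 a b]
  exact (div_le_iff₀ (posR h2)).mp h1

theorem up_of_upZ {r : ℕ} {c : ℝ} (hc : 0 ≤ c) (h : UpZ r c) :
    Up (Sq.cfg f_SEQ zsq) (Fin (r + 1)) c :=
  f_BX _ r _ hc (box_of_upZ f_SEQ r _ h)

/-- `C_k ^ j ≤ C_n` for `j k ≤ n` -/
theorem root_zeta {j k r : ℕ} {b c : ℝ} (hj : 1 ≤ j) (hjk : j * (k + 1) ≤ r + 1) (hb : 0 ≤ b)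
    (hc : 0 ≤ c) (hcb : c ≤ b ^ j) (h : UpZ r c) : UpZ k b :=
  upZ_of_up hb (up_root con_zeta hj (Nat.succ_pos k) hjk hb hc hcb (up_of_upZ hc h))

/-- the limit formula -/
def CorZ (r : ℕ) : Prop := ∀ a b : Fin r → ℝ, Tendsto (fun T => (NkS r T a b : ℝ) /
  (T / (2 * Real.pi) * Real.log T)) atTop (𝓝 (bI a b))

theorem corZ_iff (r : ℕ) : CorZ r ↔ Lim (Sq.cfg f_SEQ zsq) r := by
  unfold CorZ Lim
  refine forall_congr' fun a => forall_congr' fun b => ?_
  refine tendsto_congr' ?_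
  filter_upwards [eventually_ge_atTop 2] with T hT
  rw [NkS_eq r T hT a b]
  rfl

/-- the upper half at one level -/
theorem one_level {r : ℕ} (hr : 1 ≤ r) (h : UpZ r 1) (k : ℕ) (hk : 2 * k ≤ r + 1) : CorZ k := by
  rw [corZ_iff]
  exact lim_of_up con_zeta (n := r + 1) (by omega) (up_of_upZ zero_le_one h) (k + 1) (by omega)
    (by omega)

theorem down_zeta {k r : ℕ} (hkr : k ≤ r) (h : CorZ r) : CorZ k := by
  rw [corZ_iff] at h ⊢
  obtain ⟨m, rfl⟩ := Nat.exists_eq_add_of_le hkr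
  exact lim_down con_zeta m h

end Pool.Agent.H606.GU
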