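import Pool.Agent.H606.GU.Main2

/-! The gap form of the pair correlation conjecture. -/

open MeasureTheory Filter Topology Finset

namespace Pool.Agent.H606.GU

/-- the number of the pairs of ordinates with normalised difference in `[α, β]` -/
noncomputable def P2 (T α β : ℝ) : ℕ :=
  {q : ℕ × ℕ | (1 ≤ q.1 ∧ SG.ord q.1 ≤ T) ∧ (1 ≤ q.2 ∧ SG.ord q.2 ≤ T) ∧
    (SG.ord q.1 - SG.ord q.2) * Real.log T / (2 * Real.pi) ∈ Set.Icc α β}.ncard

theorem P2_eq {T α β : ℝ} (hα : 0 < α) : P2 T α β = NkS 1 T (fun _ => α) (fun _ => β) := by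
  unfold P2 NkS
  have hinj : Function.Injective (fun (j : Fin 2 → ℕ) => (j 0, j 1)) := by
    intro j j' h
    simp only [Prod.mk.injEq] at h
    funext i
    fin_cases i
    · exact h.1
    · exact h.2
  rw [← Set.ncard_image_of_injective _ hinj]
  congr 1
  ext q
  simp only [Set.mem_image, Set.mem_ofPred_eq]
  constructor
  · rintro ⟨h1, h2, h3⟩
    refine ⟨![q.1, q.2], ⟨?_, ?_, ?_⟩, by simp⟩
    · have hne : q.1 ≠ q.2 := by
        intro h
        rw [h, sub_self, zero_mul, zero_div] at h3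
        exact absurd h3.1 (not_le.2 hα)
      intro i i' h
      fin_cases i <;> fin_cases i'
      · rfl
      · exact absurd h hne
      · exact absurd h.symm hne
      · rfl
    · intro i
      fin_cases i
      · exact h1
      · exact h2
    · intro i
      fin_cases i
      rw [← mul_div_assoc]
      exact h3
  · rintro ⟨j, ⟨h1, h2, h3⟩, rfl⟩
    refine ⟨h2 0, h2 1, ?_⟩
    have := h3 0
    rw [← mul_div_assoc] at this
    exact this

theorem bI_one {α β : ℝ} (hα : 0 < α) (hαβ : α < β) :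
    bI (fun _ : Fin 1 => α) (fun _ => β) =
      ∫ u in α..β, (1 - (Real.sin (Real.pi * u) / (Real.pi * u)) ^ 2) := by
  unfold bI
  have hmp := volume_preserving_funUnique (Fin 1) ℝ
  have hpre : Set.Icc (fun _ : Fin 1 => α) (fun _ => β) =
      (MeasurableEquiv.funUnique (Fin 1) ℝ) ⁻¹' Set.Icc α β := by
    ext u
    simp only [Set.mem_Icc, Set.mem_preimage, MeasurableEquiv.funUnique_apply, Pi.le_def]
    constructor
    · rintro ⟨h1, h2⟩
      exact ⟨h1 _, h2 _⟩
    · rintro ⟨h1, h2⟩
      refine ⟨fun i => ?_, fun i => ?_⟩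
      · rw [Subsingleton.elim i default]
        exact h1
      · rw [Subsingleton.elim i default]
        exact h2
  have hfun : ∀ u : Fin 1 → ℝ, rho (sn u 0) =
      (fun v : ℝ => 1 - SK v ^ 2) (MeasurableEquiv.funUnique (Fin 1) ℝ u) := by
    intro u
    rw [f_RHO.2.2.2.2 (sn u 0)]
    simp only [MeasurableEquiv.funUnique_apply]
    have e1 : sn u 0 0 = u default := by
      unfold sn
      exact Fin.snoc_castSucc (α := fun _ => ℝ) (0 : ℝ) u 0
    have e2 : sn u 0 1 = 0 := by
      unfold sn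
      exact Fin.snoc_last (α := fun _ => ℝ) (0 : ℝ) u
    rw [e1, e2, sub_zero]
  have h2 : ∫ u in Set.Icc (fun _ : Fin 1 => α) (fun _ => β), rho (sn u 0) =
      ∫ v in Set.Icc α β, (1 - SK v ^ 2) := by
    have h3 := hmp.setIntegral_preimage_emb (MeasurableEquiv.measurableEmbedding _)
      (fun v : ℝ => 1 - SK v ^ 2) (Set.Icc α β)
    refine Eq.trans ?_ h3
    rw [hpre]
    exact integral_congr_ae (Filter.Eventually.of_forall hfun)
  rw [h2, intervalIntegral.integral_of_le hαβ.le, integral_Icc_eq_integral_Ioc]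
  refine setIntegral_congr_fun measurableSet_Ioc fun u hu => ?_
  have hu0 : u ≠ 0 := (hα.trans hu.1).ne'
  simp only [SK]
  rw [Real.sinc_of_ne_zero (mul_ne_zero Real.pi_ne_zero hu0)]

/-- Montgomery's pair correlation conjecture, gap form -/
def PCC : Prop := ∀ α β : ℝ, 0 < α → α < β →
  Tendsto (fun T : ℝ => (P2 T α β : ℝ) / (T * Real.log T / (2 * Real.pi))) atTop
    (𝓝 (∫ u in α..β, (1 - (Real.sin (Real.pi * u) / (Real.pi * u)) ^ 2)))

theorem pcc_of_corZ (h : CorZ 1) : PCC := by
  intro α β hα hαβ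
  have h1 := h (fun _ => α) (fun _ => β)
  rw [bI_one hα hαβ] at h1
  refine h1.congr fun T => ?_
  rw [P2_eq hα]
  congr 1
  ring

end Pool.Agent.H606.GU
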