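import Mathlib

/-!
# Project GU (helper606): the upper half of the GUE (k-level) conjecture with subexponential
# constants at a sparse set of levels implies the whole GUE conjecture and the spacing law

Definitions and the statements `S_X` of the lemmas.  Every `S_X` is a closed `Prop`.
A worker on the task `X` proves `theorem t_X (h...: S_Y) ... : S_X` in his own directory.
-/

open MeasureTheory Filter Topology Finset

namespace Pool.Agent.H606.GU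

/-! ## Definitions -/

/-- the sine kernel `sin πx / (πx)` -/
noncomputable def SK (x : ℝ) : ℝ := Real.sinc (Real.pi * x)

/-- the matrix of the sine kernel at the points `y` -/
noncomputable def KM {α : Type} (y : α → ℝ) : Matrix α α ℝ := Matrix.of fun i j => SK (y i - y j)

/-- the correlation function of the sine process -/
noncomputable def rho {α : Type} [Fintype α] [DecidableEq α] (y : α → ℝ) : ℝ := (KM y).det

/-- append a last coordinate -/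
def sn {d : ℕ} (u : Fin d → ℝ) (v : ℝ) : Fin (d + 1) → ℝ := Fin.snoc (α := fun _ => ℝ) u v

/-- the number of the injective families of indices whose points, seen from `t`, lie in `A` -/
noncomputable def cnt {α : Type} {N : ℕ} (x : Fin N → ℝ) (A : Set (α → ℝ)) (t : ℝ) : ℕ :=
  {s : α → Fin N | Function.Injective s ∧ (fun i => x (s i) - t) ∈ A}.ncard

/-- its integral over all `t`, divided by `R` -/
noncomputable def Av {α : Type} {N : ℕ} (x : Fin N → ℝ) (R : ℝ) (A : Set (α → ℝ)) : ℝ :=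
  (∫ t : ℝ, (cnt x A t : ℝ)) / R

/-- a family of finite configurations of points of mean density one -/
structure Cfg where
  /-- the number of points -/
  N : ℝ → ℕ
  /-- the points -/
  x : (T : ℝ) → Fin (N T) → ℝ
  /-- the length -/
  R : ℝ → ℝ
  hx : ∀ T i, 0 ≤ x T i ∧ x T i ≤ R T
  hR : Tendsto R atTop atTop
  hN : Tendsto (fun T => (N T : ℝ) / R T) atTop (𝓝 1)

/-- the upper half of the correlation conjecture with the constant `c`, for the tuples indexed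
by `α` -/
def Up (C : Cfg) (α : Type) [Fintype α] [DecidableEq α] (c : ℝ) : Prop :=
  ∀ K : Set (α → ℝ), IsCompact K → ∀ ε : ℝ, 0 < ε → ∀ᶠ T in atTop,
    Av (C.x T) (C.R T) K ≤ c * (∫ y in K, rho y) + ε

/-- the cube `[i a, (i+1) a)^k` -/
def tile (k : ℕ) (a : ℝ) (i : ℕ) : Set (Fin k → ℝ) :=
  {y | ∀ l, (i : ℝ) * a ≤ y l ∧ y l < ((i : ℝ) + 1) * a}

/-- the integral of the correlation function over a cube of side `a` -/
noncomputable def mm (k : ℕ) (a : ℝ) : ℝ := ∫ y in tile k a 0, rho y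

/-- the lower half on the cubes of side `a` -/
def Low (C : Cfg) (k : ℕ) (a : ℝ) : Prop := ∀ ε : ℝ, 0 < ε → ∀ᶠ T in atTop,
  mm k a - ε ≤ Av (C.x T) (C.R T) (tile k a 0)

/-- the number of points in the `i`-th tile of length `a`, seen from `t` -/
noncomputable def tc {N : ℕ} (x : Fin N → ℝ) (a : ℝ) (i : ℕ) (t : ℝ) : ℕ :=
  {j : Fin N | (i : ℝ) * a ≤ x j - t ∧ x j - t < ((i : ℝ) + 1) * a}.ncard

/-- the number of the injective `k`-tuples contained in one of the first `M` tiles -/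
noncomputable def FF {N : ℕ} (x : Fin N → ℝ) (a : ℝ) (k M : ℕ) (t : ℝ) : ℝ :=
  ∑ i ∈ range M, ((tc x a i t).descFactorial k : ℝ)

/-- the number of points in the first `M` tiles -/
noncomputable def NN {N : ℕ} (x : Fin N → ℝ) (a : ℝ) (M : ℕ) (t : ℝ) : ℝ :=
  ∑ i ∈ range M, (tc x a i t : ℝ)

/-- `k + 1` coordinates, the first `k` in tile `i`, the last in tile `i'` -/
def mix (k : ℕ) (a : ℝ) (i i' : ℕ) : Set (Fin (k + 1) → ℝ) :=
  {y | (∀ l : Fin k, (i : ℝ) * a ≤ y l.castSucc ∧ y l.castSucc < ((i : ℝ) + 1) * a) ∧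
    (i' : ℝ) * a ≤ y (Fin.last k) ∧ y (Fin.last k) < ((i' : ℝ) + 1) * a}

/-- two blocks of `k` coordinates, the first in tile `i`, the second in tile `i'` -/
def two (k : ℕ) (a : ℝ) (i i' : ℕ) : Set (Fin 2 × Fin k → ℝ) :=
  {y | (∀ l : Fin k, (i : ℝ) * a ≤ y (0, l) ∧ y (0, l) < ((i : ℝ) + 1) * a) ∧
    ∀ l : Fin k, (i' : ℝ) * a ≤ y (1, l) ∧ y (1, l) < ((i' : ℝ) + 1) * a}

/-- covariance lower bound -/
def CovLow (C : Cfg) (k : ℕ) (a : ℝ) : Prop := ∀ η : ℝ, 0 < η → ∃ M0 : ℕ, ∀ M : ℕ, M0 ≤ M →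
  ∀ᶠ T in atTop, (M : ℝ) ^ 2 * a * mm k a - η * M ≤
    (∫ t : ℝ, FF (C.x T) a k M t * NN (C.x T) a M t) / C.R T

/-- the number variance is `o(M)` -/
def VarN (C : Cfg) (a : ℝ) : Prop := ∀ η : ℝ, 0 < η → ∃ M0 : ℕ, ∀ M : ℕ, M0 ≤ M →
  ∀ᶠ T in atTop,
    (∫ t in Set.Icc (-((M : ℝ) * a)) (C.R T), (NN (C.x T) a M t - M * a) ^ 2) / C.R T ≤ η * M

/-- the second moment of the number of `k`-tuples -/
def VarF (C : Cfg) (k : ℕ) (a : ℝ) : Prop := ∃ D : ℝ, 0 < D ∧ ∀ M : ℕ, 1 ≤ M →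
  ∀ᶠ T in atTop, (∫ t : ℝ, FF (C.x T) a k M t ^ 2) / C.R T ≤ ((M : ℝ) * mm k a) ^ 2 + D * M

/-- the number of tuples of `d + 1` distinct indices whose differences with the last point lie in
the box `∏ [a_i, b_i]` -/
noncomputable def bn {d N : ℕ} (x : Fin N → ℝ) (a b : Fin d → ℝ) : ℕ :=
  {s : Fin (d + 1) → Fin N | Function.Injective s ∧
    ∀ i : Fin d, x (s i.castSucc) - x (s (Fin.last d)) ∈ Set.Icc (a i) (b i)}.ncard

/-- the integral of the correlation function over the box -/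
noncomputable def bI {d : ℕ} (a b : Fin d → ℝ) : ℝ := ∫ u in Set.Icc a b, rho (sn u 0)

/-- the upper half for boxes, level `d + 1` -/
def Box (C : Cfg) (d : ℕ) (c : ℝ) : Prop := ∀ a b : Fin d → ℝ, ∀ ε : ℝ, 0 < ε →
  ∀ᶠ T in atTop, (bn (C.x T) a b : ℝ) / C.R T ≤ c * bI a b + ε

/-- the correlation conjecture for boxes, level `d + 1` -/
def Lim (C : Cfg) (d : ℕ) : Prop := ∀ a b : Fin d → ℝ,
  Tendsto (fun T => (bn (C.x T) a b : ℝ) / C.R T) atTop (𝓝 (bI a b))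

/-! ## Basic lemmas -/

/-- TASK RHO. Elementary properties of `rho`: continuity, symmetry, translations. -/
def S_RHO : Prop :=
  (∀ (α : Type) [Fintype α] [DecidableEq α], Continuous (rho : (α → ℝ) → ℝ)) ∧
  (∀ (α β : Type) [Fintype α] [DecidableEq α] [Fintype β] [DecidableEq β] (e : β ≃ α) (y : α → ℝ),
    rho (fun i => y (e i)) = rho y) ∧
  (∀ (α : Type) [Fintype α] [DecidableEq α] (y : α → ℝ) (t : ℝ), rho (fun i => y i - t) = rho y) ∧
  (∀ (α : Type) [Fintype α] [DecidableEq α] [Unique α] (y : α → ℝ), rho y = 1) ∧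
  (∀ y : Fin 2 → ℝ, rho y = 1 - SK (y 0 - y 1) ^ 2)

/-- TASK REP. The reproducing property of the sine kernel (Plancherel). -/
def S_REP : Prop := ∀ x y : ℝ, Integrable (fun t => SK (t - x) * SK (t - y)) ∧
  ∫ t, SK (t - x) * SK (t - y) = SK (x - y)

/-- TASK FIS. Positivity and Fischer's inequality. -/
def S_FIS : Prop :=
  (∀ (α : Type) [Fintype α] [DecidableEq α] (y : α → ℝ), (KM y).PosSemidef ∧ 0 ≤ rho y ∧ rho y ≤ 1) ∧
  (∀ (α β : Type) [Fintype α] [DecidableEq α] [Fintype β] [DecidableEq β] (y : α ⊕ β → ℝ),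
    rho y ≤ rho (fun i => y (Sum.inl i)) * rho (fun i => y (Sum.inr i))) ∧
  (∀ (j : ℕ) (α : Type) [Fintype α] [DecidableEq α] (y : Fin j × α → ℝ),
    rho y ≤ ∏ l : Fin j, rho (fun i => y (l, i))) ∧
  (∀ (k : ℕ) (y : Fin k → ℝ) (v : ℝ), rho (sn y v) ≤ rho y)

/-- TASK SUM. The sum rule of the sine process. -/
def S_SUM : Prop := ∀ (k : ℕ) (y : Fin k → ℝ),
  Integrable (fun v => rho y - rho (sn y v)) ∧ ∫ v, (rho y - rho (sn y v)) = k * rho y

/-- the missing mass outside the window -/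
noncomputable def tl (k : ℕ) (a : ℝ) (M : ℕ) : ℝ := ∑ i ∈ range M,
  ∫ y in tile k a i, (∫ v in (Set.Ico 0 ((M : ℝ) * a))ᶜ, (rho y - rho (sn y v)))

/-- TASK TAIL. -/
def S_TAIL : Prop := ∀ (k : ℕ) (a : ℝ), 1 ≤ k → 0 < a →
  Tendsto (fun M : ℕ => tl k a M / M) atTop (𝓝 0)

/-- TASK AV. Basic properties of `cnt` and `Av`. -/
def S_AV : Prop := ∀ (α : Type) [Fintype α] [Nonempty α] (N : ℕ) (x : Fin N → ℝ) (R : ℝ), 0 < R →
  (∀ A : Set (α → ℝ), MeasurableSet A → Bornology.IsBounded A →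
    Integrable (fun t => (cnt x A t : ℝ))) ∧
  (∀ (A : Set (α → ℝ)) (τ : ℝ), Av x R {y | (fun i => y i - τ) ∈ A} = Av x R A) ∧
  (∀ A B : Set (α → ℝ), MeasurableSet A → Bornology.IsBounded A → MeasurableSet B →
    Bornology.IsBounded B → Disjoint A B → Av x R (A ∪ B) = Av x R A + Av x R B) ∧
  (∀ A B : Set (α → ℝ), MeasurableSet A → MeasurableSet B →
    Bornology.IsBounded B → A ⊆ B → Av x R A ≤ Av x R B) ∧
  (∀ A : Set (α → ℝ), 0 ≤ Av x R A)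

/-- TASK AVE. `Av` and `Up` do not depend on the names of the coordinates. -/
def S_AVE : Prop := ∀ (α β : Type) [Fintype α] [DecidableEq α] [Fintype β] [DecidableEq β]
  (e : α ≃ β),
  (∀ (N : ℕ) (x : Fin N → ℝ) (R : ℝ) (A : Set (α → ℝ)),
    Av x R {y : β → ℝ | (fun i => y (e i)) ∈ A} = Av x R A) ∧
  (∀ (C : Cfg) (c : ℝ), Up C α c → Up C β c)

/-- TASK TC. The tiles. -/
def S_TC : Prop := ∀ (N : ℕ) (x : Fin N → ℝ) (a : ℝ), 0 < a →
  (∀ k i t, (tc x a i t).descFactorial k = cnt x (tile k a i) t) ∧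
  (∀ k i i' t, i ≠ i' → (tc x a i t).descFactorial k * tc x a i' t = cnt x (mix k a i i') t) ∧
  (∀ k i i' t, i ≠ i' → (tc x a i t).descFactorial k * (tc x a i' t).descFactorial k =
    cnt x (two k a i i') t) ∧
  (∀ i t, tc x a i t = tc x a 0 (t + i * a)) ∧
  (∀ i, Measurable (fun t => (tc x a i t : ℝ))) ∧
  (∀ (M : ℕ) (R : ℝ), (∀ j, 0 ≤ x j ∧ x j ≤ R) → ∀ i < M, ∀ t, t ∉ Set.Icc (-((M : ℝ) * a)) R →
    tc x a i t = 0) ∧
  (∀ i t, tc x a i t ≤ N) ∧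
  (∀ i, ∫ t : ℝ, (tc x a i t : ℝ) = N * a) ∧
  (∀ (M : ℕ) (t : ℝ), NN x a M t = tc x (M * a) 0 t)

/-! ## From boxes to compact sets -/

/-- TASK BX. -/
def S_BX : Prop := ∀ (C : Cfg) (d : ℕ) (c : ℝ), 0 ≤ c → Box C d c → Up C (Fin (d + 1)) c

/-! ## Compact sets versus bounded sets with null frontier, integrals over the cells -/

/-- TASK UPC. -/
def S_UPC : Prop := ∀ (C : Cfg) (α : Type) [Fintype α] [DecidableEq α] [Nonempty α] (c : ℝ), 0 ≤ c →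
  Up C α c → ∀ A : Set (α → ℝ), MeasurableSet A → Bornology.IsBounded A →
  volume (frontier A) = 0 → ∀ ε : ℝ, 0 < ε → ∀ᶠ T in atTop,
    Av (C.x T) (C.R T) A ≤ c * (∫ y in A, rho y) + ε

/-- TASK SETS. -/
def S_SETS : Prop := ∀ (k : ℕ) (a : ℝ), 1 ≤ k → 0 < a →
  (∀ i, MeasurableSet (tile k a i) ∧ Bornology.IsBounded (tile k a i) ∧
    volume (frontier (tile k a i)) = 0) ∧
  (∀ i i', MeasurableSet (mix k a i i') ∧ Bornology.IsBounded (mix k a i i') ∧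
    volume (frontier (mix k a i i')) = 0) ∧
  (∀ i i', MeasurableSet (two k a i i') ∧ Bornology.IsBounded (two k a i i') ∧
    volume (frontier (two k a i i')) = 0)

/-- TASK INT. -/
def S_INT : Prop := ∀ (k : ℕ) (a : ℝ), 1 ≤ k → 0 < a →
  (0 ≤ mm k a ∧ mm k a ≤ a ^ k) ∧ mm 1 a = a ∧
  (∀ i, ∫ y in tile k a i, rho y = mm k a) ∧
  (∀ i, ∫ y in mix k a i i, rho y = mm (k + 1) a) ∧
  (∀ i i', ∫ y in two k a i i', rho y ≤ mm k a ^ 2) ∧
  (∀ M : ℕ, ∑ i ∈ range M, ∑ i' ∈ range M, ∫ y in mix k a i i', rho y =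
    (M : ℝ) ^ 2 * a * mm k a - k * M * mm k a + tl k a M)

/-- `j` blocks of `k` coordinates, the `l`-th block in `K + i_l D` -/
def blk {j k : ℕ} (K : Set (Fin k → ℝ)) (D : ℝ) (i : Fin j → ℕ) : Set (Fin j × Fin k → ℝ) :=
  {y | ∀ l, (fun r => y (l, r) - (i l : ℝ) * D) ∈ K}

/-- TASK BLK. -/
def S_BLK : Prop := ∀ (j k : ℕ) (D : ℝ) (K : Set (Fin k → ℝ)), 0 < D → 1 ≤ k → IsCompact K →
  K ⊆ tile k D 0 → ∀ i : Fin j → ℕ, Function.Injective i →
  (∀ (N : ℕ) (x : Fin N → ℝ) (t : ℝ),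
    ∏ l, cnt x K (t + (i l : ℝ) * D) = cnt x (blk K D i) t) ∧
  IsCompact (blk K D i) ∧ ∫ y in blk K D i, rho y ≤ (∫ y in K, rho y) ^ j

/-- TASK MOM. Moments of the number of points in a window. -/
def S_MOM : Prop := ∀ (C : Cfg) (n : ℕ) (c : ℝ), 1 ≤ n → 0 ≤ c → Up C (Fin n) c →
  ∀ p : ℕ, 1 ≤ p → p ≤ n → ∀ a : ℝ, 0 < a → ∃ D : ℝ, 0 < D ∧ ∀ᶠ T in atTop,
    (∫ t : ℝ, (tc (C.x T) a 0 t : ℝ) ^ p) / C.R T ≤ D

/-! ## Concentration and reduction of the level -/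

/-- the hypothesis: the upper half with subexponential constants at infinitely many levels -/
def Hyp (C : Cfg) : Prop := ∀ δ : ℝ, 0 < δ → ∀ n0 : ℕ, ∃ n : ℕ, n0 ≤ n ∧
  Up C (Fin n) ((1 + δ) ^ n)

/-- the number of points in a long window is close to its length, on average -/
def Con (C : Cfg) : Prop := ∀ η : ℝ, 0 < η → ∃ L0 : ℝ, 0 < L0 ∧ ∀ L : ℝ, L0 ≤ L →
  ∀ᶠ T in atTop,
    (∫ t in Set.Icc (-L) (C.R T), |(tc (C.x T) L 0 t : ℝ) - L|) / C.R T ≤ η * L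

/-- TASK CON. -/
def S_CON : Prop := ∀ C : Cfg, Hyp C → Con C

/-- TASK RED. -/
def S_RED : Prop := ∀ (C : Cfg) (n : ℕ) (c : ℝ), 1 ≤ n → 0 ≤ c → Con C →
  (∃ (n' : ℕ) (c' : ℝ), 2 * n ≤ n' ∧ 0 ≤ c' ∧ Up C (Fin n') c') →
  Up C (Fin (n + 1)) c → Up C (Fin n) c

/-! ## Amplification (tensor power trick) -/

/-- TASK AMP. -/
def S_AMP : Prop := ∀ (C : Cfg) (k : ℕ), 1 ≤ k →
  (∀ δ : ℝ, 0 < δ → ∃ j : ℕ, 1 ≤ j ∧ ∃ c : ℝ, 0 ≤ c ∧ c ≤ (1 + δ) ^ j ∧ Up C (Fin j × Fin k) c) →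
  Up C (Fin k) 1

/-! ## Equality at all levels -/

/-- TASK L1. -/
def S_L1 : Prop := ∀ (C : Cfg) (a : ℝ), 0 < a → Low C 1 a ∧ CovLow C 1 a

/-- TASK VN. -/
def S_VN : Prop := ∀ (C : Cfg), Up C (Fin 2) 1 → ∀ a : ℝ, 0 < a → VarN C a

/-- TASK VF. -/
def S_VF : Prop := ∀ (C : Cfg), (∀ k, 1 ≤ k → Up C (Fin k) 1) → ∀ (k : ℕ) (a : ℝ), 1 ≤ k → 0 < a →
  VarF C k a

/-- TASK COV. -/
def S_COV : Prop := ∀ (C : Cfg) (k : ℕ) (a : ℝ), 1 ≤ k → 0 < a → Up C (Fin k) 1 → VarN C a →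
  VarF C k a → Low C k a → CovLow C k a

/-- TASK CMP. -/
def S_CMP : Prop := ∀ (C : Cfg) (k : ℕ) (a : ℝ), 1 ≤ k → 0 < a → Up C (Fin k) 1 →
  Up C (Fin (k + 1)) 1 → CovLow C k a → Low C (k + 1) a

/-- TASK FIN. -/
def S_FIN : Prop := ∀ (C : Cfg) (d : ℕ), Up C (Fin (d + 1)) 1 → (∀ a : ℝ, 0 < a → Low C (d + 1) a) →
  Lim C d

/-! ## Spacings -/

/-- the number of the points such that all the later points are farther than `s` -/
noncomputable def gp {N : ℕ} (x : Fin N → ℝ) (s : ℝ) : ℕ :=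
  {i : Fin N | ∀ j : Fin N, i < j → x i + s < x j}.ncard

/-- `∑ (-1)^k / k! ∫_{[0,s]^k} rho(u, 0) du` -/
noncomputable def GG (s : ℝ) : ℝ := ∑' k : ℕ, (-1 : ℝ) ^ k / (k.factorial : ℝ) *
  ∫ u in Set.Icc (0 : Fin k → ℝ) (fun _ => s), rho (sn u 0)

/-- the Fredholm determinant `E(s) = det(1 - K_s)` of the sine kernel on `[0, s]` -/
noncomputable def EE (s : ℝ) : ℝ := ∑' k : ℕ, (-1 : ℝ) ^ k / (k.factorial : ℝ) *
  ∫ y in Set.Icc (0 : Fin k → ℝ) (fun _ => s), rho y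

/-- TASK GAPC. -/
def S_GAPC : Prop := ∀ C : Cfg, (∀ T, Monotone (C.x T)) → (∀ d, Lim C d) → ∀ s : ℝ, 0 ≤ s →
  Tendsto (fun T => (gp (C.x T) s : ℝ) / C.R T) atTop (𝓝 (GG s))

/-- TASK DER. -/
def S_DER : Prop := ∀ (k : ℕ) (g : (Fin (k + 1) → ℝ) → ℝ), Continuous g →
  (∀ (e : Equiv.Perm (Fin (k + 1))) (y : Fin (k + 1) → ℝ), g (fun i => y (e i)) = g y) →
  ∀ s : ℝ, 0 < s →
    HasDerivAt (fun s => ∫ u in Set.Icc (0 : Fin (k + 1) → ℝ) (fun _ => s), g u)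
      (((k : ℝ) + 1) * ∫ u in Set.Icc (0 : Fin k → ℝ) (fun _ => s), g (sn u s)) s

/-- TASK FRED. -/
def S_FRED : Prop := ContinuousOn GG (Set.Ici 0) ∧ ∀ α β : ℝ, 0 < α → α ≤ β →
  GG α - GG β = ∫ s in α..β, deriv (deriv EE) s

/-- a sequence of positive numbers with the counting function `∼ T log T / 2π` -/
structure Sq where
  /-- the points -/
  g : ℕ → ℝ
  mono : Monotone g
  pos : ∀ n, 0 < g n
  /-- the counting function -/
  cN : ℝ → ℕ
  hc : ∀ n T, g n ≤ T ↔ n < cN T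
  asy : Tendsto (fun T => (cN T : ℝ) / (T / (2 * Real.pi) * Real.log T)) atTop (𝓝 1)

/-- the number of points of the configuration at height `T` -/
noncomputable def Sq.N (S : Sq) (T : ℝ) : ℕ := if T < 2 then 0 else S.cN T

/-- the points of the configuration at height `T` -/
noncomputable def Sq.x (S : Sq) (T : ℝ) (i : Fin (S.N T)) : ℝ :=
  S.g i.val * (Real.log T / (2 * Real.pi))

/-- TASK GAPZ. -/
def S_GAPZ : Prop := ∀ S : Sq,
  (∀ s : ℝ, 0 ≤ s →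
    Tendsto (fun T => (gp (S.x T) s : ℝ) / (T / (2 * Real.pi) * Real.log T)) atTop (𝓝 (GG s))) →
  ContinuousOn GG (Set.Ici 0) → ∀ α β : ℝ, 0 < α → α < β →
  Tendsto (fun N : ℕ => ({n : ℕ | n < N ∧
      α ≤ (S.g (n + 1) - S.g n) / (2 * Real.pi) * Real.log (S.g n / (2 * Real.pi)) ∧
      (S.g (n + 1) - S.g n) / (2 * Real.pi) * Real.log (S.g n / (2 * Real.pi)) ≤ β}.ncard : ℝ) / N)
    atTop (𝓝 (GG α - GG β))

/-- TASK SEQ. The configurations of a sequence. -/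
def S_SEQ : Prop := ∀ S : Sq,
  (∀ T (i : Fin (S.N T)), 0 ≤ S.x T i ∧ S.x T i ≤ T / (2 * Real.pi) * Real.log T) ∧
  Tendsto (fun T : ℝ => T / (2 * Real.pi) * Real.log T) atTop atTop ∧
  Tendsto (fun T => (S.N T : ℝ) / (T / (2 * Real.pi) * Real.log T)) atTop (𝓝 1) ∧
  (∀ T, Monotone (S.x T))

end Pool.Agent.H606.GU
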