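import Pool.Agent.H606.GU.Stm
import Pool.Graph.R_seed8.W54.TCF.NT
import Pool.Graph.R_seed8.H382R2.Final0

/-! The sequence of the ordinates of the nontrivial zeros of the zeta function. -/

open Filter Topology Finset

namespace Pool.Agent.H606.GU

theorem NZ_eq_NN (T : ℝ) : SG.NZ T = H370.NN riemannZeta 0 T := by
  unfold SG.NZ H370.NN
  apply finsum_mem_congr
  · ext s
    simp only [Set.mem_setOf_eq, H370.zset]
    tauto
  · intro s _
    rfl

theorem NZ_asy : Tendsto (fun T : ℝ => (SG.NZ T : ℝ) / (T / (2 * Real.pi) * Real.log T))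
    atTop (𝓝 1) := by
  rw [Metric.tendsto_atTop]
  intro ε hε
  obtain ⟨T0, hT0, h⟩ := Pool.Agent.W54.TCF.NT_asymp' (ε / 2) (by positivity)
  refine ⟨T0, fun T hT => ?_⟩
  have hT10 : (10 : ℝ) ≤ T := hT0.trans hT
  obtain ⟨h1, h2⟩ := h T hT
  rw [← NZ_eq_NN] at h1 h2
  have hlog : 0 < Real.log T := Real.log_pos (by linarith)
  have hpos : 0 < T / (2 * Real.pi) * Real.log T := by
    have := Real.pi_pos
    have : 0 < T := by linarith
    positivity
  rw [Real.dist_eq, abs_lt]
  constructor
  · have : 1 - ε / 2 ≤ (SG.NZ T : ℝ) / (T / (2 * Real.pi) * Real.log T) := by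
      rw [le_div_iff₀ hpos]; exact h1
    linarith
  · have : (SG.NZ T : ℝ) / (T / (2 * Real.pi) * Real.log T) ≤ 1 + ε / 2 := by
      rw [div_le_iff₀ hpos]; exact h2
    linarith

/-- the ordinates of the nontrivial zeros of the zeta function -/
noncomputable def zsq : Sq where
  g n := SG.ord (n + 1)
  mono := by
    intro a b h
    exact SG.ord_mono (by omega) (by omega)
  pos n := SG.ord_pos (by omega)
  cN := SG.NZ
  hc n T := by
    rw [SG.ord_le_iff (by omega)]
    omega
  asy := NZ_asy

end Pool.Agent.H606.GU
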